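import Pool.Agent.W912.SE.Defs

/-!
# Facts on the test formulas
-/

set_option autoImplicit false

namespace Pool.Agent.W239.SE.ENC

open Pool.Agent.NPC Pool.Agent.H620R2.Gauge H568R2 Pool.Agent.H676 Pool.Agent.W912.SE

/-- the arguments of the literal of clause `i` -/
def ar (n : ℕ) (z : List Bool) (i : ℕ) : List Arg :=
  List.replicate i (Arg.cst true) ++ Arg.cst false ::
    (z.map Arg.cst ++ (List.range n).map Arg.var)

theorem phi_eq (n m : ℕ) (z : List Bool) :
    phi n m z = (List.range m).map (fun i => [Lit.ora (ar n z i) true]) := rfl

theorem ar_vars (n : ℕ) (z : List Bool) (i : ℕ) : (ar n z i).flatMap Arg.vars = List.range n := by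
  have h1 : (List.replicate i (Arg.cst true)).flatMap Arg.vars = [] := by
    rw [List.flatMap_eq_nil_iff]
    intro a ha
    rw [List.eq_of_mem_replicate ha]
    rfl
  have h2 : (z.map Arg.cst).flatMap Arg.vars = [] := by
    rw [List.flatMap_eq_nil_iff]
    intro a ha
    obtain ⟨b, _, rfl⟩ := List.mem_map.1 ha
    rfl
  have h3 : ∀ l : List ℕ, (l.map Arg.var).flatMap Arg.vars = l := by
    intro l
    induction l with
    | nil => rfl
    | cons a l ih =>
      rw [List.map_cons, List.flatMap_cons, ih]
      rfl
  unfold ar
  rw [List.flatMap_append, List.flatMap_cons, List.flatMap_append, h1, h2, h3]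
  rfl

theorem ar_val (n : ℕ) (z : List Bool) (i : ℕ) (y : ℕ → Bool) :
    (ar n z i).map (Arg.val y) = cw i z ((List.range n).map y) := by
  unfold ar cw
  rw [List.map_append, List.map_cons, List.map_append, List.map_replicate, List.map_map,
    List.map_map]
  have h1 : z.map (Arg.val y ∘ Arg.cst) = z := by
    conv_rhs => rw [← List.map_id z]
    rfl
  rw [h1]
  rfl

theorem len_encL {α : Type} (e : α → List Bool) (l : List α) :
    (encL e l).length = (l.map (fun a => (e a).length + 1)).sum + 1 := by
  unfold encL
  rw [List.length_append, List.length_flatMap]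
  rfl

theorem bits_len (i : ℕ) : (Nat.bits i).length ≤ i := by
  rw [Nat.size_eq_bits_len]
  exact Nat.size_le.2 Nat.lt_two_pow_self

theorem len_encN (i : ℕ) : (encN i).length ≤ 2 * i + 1 := by
  unfold encN
  rw [List.length_append, List.length_flatMap]
  have h : ((Nat.bits i).map (fun b => [true, b].length)).sum = (Nat.bits i).length * 2 := by
    have h1 : (Nat.bits i).map (fun b => [true, b].length) = (Nat.bits i).map (fun _ => 2) := rfl
    rw [h1, List.map_const', List.sum_replicate, smul_eq_mul]
  rw [h]
  have := bits_len i
  simp only [List.length_cons, List.length_nil]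
  omega

theorem len_ar (n : ℕ) (z : List Bool) (i : ℕ) : (encL Arg.enc (ar n z i)).length ≤
    3 * (i + 1 + z.length) + n * (2 * n + 3) + 1 := by
  rw [len_encL]
  unfold ar
  rw [List.map_append, List.map_cons, List.map_append, List.sum_append, List.sum_cons,
    List.sum_append, List.map_replicate, List.sum_replicate, List.map_map, List.map_map]
  have h1 : (z.map ((fun a => (Arg.enc a).length + 1) ∘ Arg.cst)).sum = z.length * 3 := by
    have h1 : z.map ((fun a => (Arg.enc a).length + 1) ∘ Arg.cst) = z.map (fun _ => 3) := rfl
    rw [h1, List.map_const', List.sum_replicate, smul_eq_mul]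
  have h2 : ((List.range n).map ((fun a => (Arg.enc a).length + 1) ∘ Arg.var)).sum ≤
      n * (2 * n + 3) := by
    have h3 : ∀ k ∈ (List.range n).map ((fun a => (Arg.enc a).length + 1) ∘ Arg.var),
        k ≤ 2 * n + 3 := by
      intro k hk
      obtain ⟨j, hj, rfl⟩ := List.mem_map.1 hk
      rw [List.mem_range] at hj
      have := len_encN j
      change (true :: encN j).length + 1 ≤ 2 * n + 3
      rw [List.length_cons]
      omega
    have h4 := List.sum_le_card_nsmul _ _ h3
    rw [List.length_map, List.length_range, smul_eq_mul] at h4
    exact h4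
  rw [h1]
  have h5 : (Arg.enc (Arg.cst true)).length = 2 := rfl
  have h6 : (Arg.enc (Arg.cst false)).length = 2 := rfl
  rw [h5, h6, smul_eq_mul]
  omega

theorem len_cl (n : ℕ) (z : List Bool) (i : ℕ) :
    (encL Lit.enc [Lit.ora (ar n z i) true]).length + 1 ≤
      3 * (i + 1 + z.length) + n * (2 * n + 3) + 6 := by
  rw [len_encL]
  have h : (Lit.enc (Lit.ora (ar n z i) true)).length = (encL Arg.enc (ar n z i)).length + 2 := rfl
  have := len_ar n z i
  simp only [List.map_cons, List.map_nil, List.sum_cons, List.sum_nil, h]
  omega

theorem main : S_ENC := by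
  intro n m z
  refine ⟨?_, ?_, ?_, ?_, ?_⟩
  · rw [phi_eq, List.length_map, List.length_range]
  · intro c hc
    rw [phi_eq, List.mem_map] at hc
    obtain ⟨i, _, rfl⟩ := hc
    exact le_refl 1
  · intro hm
    have h : ((phi n m z).flatMap (fun c => c.flatMap Lit.vars)).toFinset = Finset.range n := by
      ext x
      rw [List.mem_toFinset, List.mem_flatMap, Finset.mem_range]
      constructor
      · rintro ⟨c, hc, hx⟩
        rw [phi_eq, List.mem_map] at hc
        obtain ⟨i, _, rfl⟩ := hc
        have hx' : x ∈ (ar n z i).flatMap Arg.vars := by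
          simpa [Lit.vars] using hx
        rw [ar_vars, List.mem_range] at hx'
        exact hx'
      · intro hx
        refine ⟨[Lit.ora (ar n z 0) true], ?_, ?_⟩
        · rw [phi_eq, List.mem_map]
          exact ⟨0, List.mem_range.2 hm, rfl⟩
        · have hx' : x ∈ (ar n z 0).flatMap Arg.vars := by
            rw [ar_vars, List.mem_range]
            exact hx
          simpa [Lit.vars] using hx'
    unfold nv
    rw [h, Finset.card_range]
  · unfold enc
    rw [len_encL, phi_eq, List.map_map]
    have h3 : ∀ k ∈ (List.range m).map ((fun a => (encL Lit.enc a).length + 1) ∘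
        (fun i => [Lit.ora (ar n z i) true])),
        k ≤ 3 * (m + z.length) + n * (2 * n + 3) + 6 := by
      intro k hk
      obtain ⟨j, hj, rfl⟩ := List.mem_map.1 hk
      rw [List.mem_range] at hj
      have := len_cl n z j
      simp only [Function.comp]
      omega
    have h4 := List.sum_le_card_nsmul _ _ h3
    rw [List.length_map, List.length_range, smul_eq_mul] at h4
    unfold Lb
    generalize n * (2 * n + 3) = w at *
    nlinarith
  · intro A y
    unfold sat
    rw [phi_eq, List.filter_map, List.length_map]
    have h : ((fun c => List.any c (Lit.val A y)) ∘ fun i => [Lit.ora (ar n z i) true]) =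
        fun i => A (cw i z ((List.range n).map y)) := by
      funext i
      simp only [Function.comp, List.any_cons, List.any_nil, Bool.or_false]
      change (A ((ar n z i).map (Arg.val y)) == true) = _
      rw [ar_val]
      simp
    rw [h]
    rw [Finset.card_filter]
    have h2 : ∀ (l : List ℕ) (p : ℕ → Bool), (l.filter p).length =
        (l.map (fun i => if p i = true then 1 else 0)).sum := by
      intro l p
      induction l with
      | nil => rfl
      | cons a l ih =>
        rw [List.filter_cons, List.map_cons, List.sum_cons]
        split_ifs with h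
        · rw [List.length_cons, ih, add_comm]
        · rw [ih, zero_add]
    rw [h2, Finset.sum_range, ← List.sum_ofFn]
    congr 1
    apply List.ext_getElem
    · simp
    · intro i h1 h2
      simp

end Pool.Agent.W239.SE.ENC
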